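import Mathlib
import Pool.Agent.H.MP_f65c66_pr.C

open MeasureTheory
open scoped ENNReal

namespace Pool.Agent.Results.MP_f65c66_pr.Lines

/-- Infinite locally finite trees with vertex set `ℕ`; the root is `0`. -/
abbrev Tr : Type := {T : SimpleGraph ℕ // T.IsTree ∧ ∀ v, (T.neighborSet v).Finite}

/-- The mass transport principle for a law of rooted trees. -/
def Unimod (P : Measure Tr) : Prop :=
  ∀ F : Tr → ℕ → ℕ → ℝ≥0∞, (∀ x y, Measurable fun T => F T x y) →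
    (∀ (T T' : Tr) (σ : T.1 ≃g T'.1) x y, F T' (σ x) (σ y) = F T x y) →
    ∫⁻ T, ∑' v, F T 0 v ∂P = ∫⁻ T, ∑' v, F T v 0 ∂P

/-- The mass transport principle for a law of rooted trees marked by a set of edges. -/
def UnimodM (Q : Measure (Tr × SimpleGraph ℕ)) : Prop :=
  ∀ F : Tr × SimpleGraph ℕ → ℕ → ℕ → ℝ≥0∞, (∀ x y, Measurable fun p => F p x y) →
    (∀ (p p' : Tr × SimpleGraph ℕ) (σ : p.1.1 ≃g p'.1.1),
      (∀ u v, p'.2.Adj (σ u) (σ v) ↔ p.2.Adj u v) → ∀ x y, F p' (σ x) (σ y) = F p x y) →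
    ∫⁻ p, ∑' v, F p 0 v ∂Q = ∫⁻ p, ∑' v, F p v 0 ∂Q

theorem result (d : ℕ) (hd : 2 ≤ d) (P : Measure Tr) [IsProbabilityMeasure P] (hP : Unimod P)
    (hdeg : ∀ᵐ T ∂P, (T.1.neighborSet 0).ncard ≤ d) :
    ∃ Q : Measure (Tr × SimpleGraph ℕ), IsProbabilityMeasure Q ∧ Q.map Prod.fst = P ∧ UnimodM Q ∧
      (∀ᵐ p ∂Q, p.2 ≤ p.1.1 ∧
        ∀ v, (p.2.neighborSet v).encard = 0 ∨ (p.2.neighborSet v).encard = 2) ∧
      3 * ((∫ T, ((T.1.neighborSet 0).ncard : ℝ) ∂P) / d) - 2 ≤ Q.real {p | ∃ v, p.2.Adj 0 v} :=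
  Pool.Agent.H.MP_f65c66_pr.main d hd P hP hdeg

end Pool.Agent.Results.MP_f65c66_pr.Lines
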